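import Mathlib

/-!
Greedy unit fractions with rapidly growing denominators.
-/

set_option autoImplicit false

namespace Pool.Agent.H39R3.Mom

theorem egypt_list : ∀ a b : ℕ, 0 < a → a < b → ∃ l : List ℕ, (∀ q ∈ l, 2 ≤ q) ∧
    (l.map (fun q : ℕ => (1 : ℝ) / q)).sum = (a : ℝ) / b ∧
    (l.map (fun q : ℕ => (1 : ℝ) / √(q : ℝ))).sum ≤ 3.5 * √((a : ℝ) / b) := by
  intro a
  induction a using Nat.strong_induction_on with
  | _ a ih =>
    intro b ha hab
    have hb : 0 < b := by omega
    set q : ℕ := (b + a - 1) / a with hq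
    have h1 : b ≤ a * q := by
      have h := Nat.lt_mul_div_succ (b + a - 1) ha
      rw [← hq] at h
      have : a * (q + 1) = a * q + a := by ring
      omega
    have h2 : a * q < a + b := by
      have h := Nat.mul_div_le (b + a - 1) a
      rw [← hq] at h
      omega
    have hq2 : 2 ≤ q := by
      by_contra hcon
      push Not at hcon
      have : a * q ≤ a * 1 := Nat.mul_le_mul_left _ (by omega)
      omega
    have haR : (0 : ℝ) < a := by exact_mod_cast ha
    have hbR : (0 : ℝ) < b := by exact_mod_cast hb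
    have hqR : (0 : ℝ) < q := by exact_mod_cast (by omega : 0 < q)
    have h1R : (b : ℝ) ≤ a * q := by exact_mod_cast h1
    have hinv : 1 / √(q : ℝ) ≤ √((a : ℝ) / b) := by
      rw [one_div, ← Real.sqrt_inv]
      apply Real.sqrt_le_sqrt
      rw [inv_eq_one_div, div_le_div_iff₀ hqR hbR]
      linarith
    have hs0 : 0 ≤ √((a : ℝ) / b) := Real.sqrt_nonneg _
    rcases Nat.eq_zero_or_pos (a * q - b) with h0 | hpos
    · refine ⟨[q], by simpa using hq2, ?_, ?_⟩
      · have : a * q = b := by omega
        have hR : (a : ℝ) * q = b := by exact_mod_cast this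
        simp only [List.map_cons, List.map_nil, List.sum_cons, List.sum_nil, add_zero]
        rw [div_eq_div_iff hqR.ne' hbR.ne']
        linarith
      · simp only [List.map_cons, List.map_nil, List.sum_cons, List.sum_nil, add_zero]
        linarith
    · set a' : ℕ := a * q - b with ha'
      have ha'lt : a' < a := by omega
      have hbq : a' < b * q := by
        have : b * 1 ≤ b * q := Nat.mul_le_mul_left _ (by omega)
        omega
      obtain ⟨l, hl1, hl2, hl3⟩ := ih a' ha'lt (b * q) hpos hbq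
      have ha'R : (a' : ℝ) = a * q - b := by
        rw [ha', Nat.cast_sub h1]
        push_cast
        ring
      refine ⟨q :: l, ?_, ?_, ?_⟩
      · intro x hx
        rcases List.mem_cons.mp hx with rfl | h
        · exact hq2
        · exact hl1 x h
      · rw [List.map_cons, List.sum_cons, hl2, ha'R]
        push_cast
        field_simp
        ring
      · rw [List.map_cons, List.sum_cons]
        have h3 : √((a' : ℝ) / ((b * q : ℕ) : ℝ)) ≤ √((a : ℝ) / b) * (5 / 7) := by
          have e : √((a : ℝ) / b) * (5 / 7) = √((a : ℝ) / b * (25 / 49)) := by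
            rw [Real.sqrt_mul (by positivity)]
            congr 1
            rw [show (25 / 49 : ℝ) = (5 / 7) ^ 2 by norm_num, Real.sqrt_sq (by norm_num)]
          rw [e]
          apply Real.sqrt_le_sqrt
          rw [ha'R]
          push_cast
          rw [div_mul_eq_mul_div, div_le_div_iff₀ (by positivity) hbR]
          have h4 : (a : ℝ) * q < a + b := by exact_mod_cast h2
          have h5 : (a : ℝ) < b := by exact_mod_cast hab
          -- `a q - b ≤ a q / 2`
          have h6 : (a : ℝ) * q - b ≤ a * q / 2 := by linarith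
          have h7 : ((a : ℝ) * q - b) * b ≤ (a * q / 2) * b := mul_le_mul_of_nonneg_right h6 hbR.le
          have h8 : 0 ≤ (a : ℝ) * q * b := by positivity
          nlinarith
        have h9 : (3.5 : ℝ) * √((a' : ℝ) / ((b * q : ℕ) : ℝ)) ≤ 2.5 * √((a : ℝ) / b) := by
          linarith
        calc 1 / √(q : ℝ) + (l.map (fun q : ℕ => (1 : ℝ) / √(q : ℝ))).sum
            ≤ √((a : ℝ) / b) + 2.5 * √((a : ℝ) / b) := by linarith
          _ = 3.5 * √((a : ℝ) / b) := by ring

theorem egypt (r : ℚ) (h0 : 0 < r) (h1 : r < 1) : ∃ (n : ℕ) (q : Fin n → ℕ), (∀ i, 2 ≤ q i) ∧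
    ∑ i, (1 : ℝ) / (q i : ℝ) = (r : ℝ) ∧ ∑ i, (1 : ℝ) / √(q i : ℝ) ≤ 3.5 * √(r : ℝ) := by
  have hn : 0 < r.num := Rat.num_pos.mpr h0
  obtain ⟨a, ha⟩ : ∃ a : ℕ, r.num = a := ⟨r.num.toNat, by omega⟩
  have ha0 : 0 < a := by omega
  have hr : (r : ℝ) = (a : ℝ) / (r.den : ℝ) := by
    have h := Rat.num_div_den r
    have h2 : (r : ℝ) = ((r.num : ℚ) / (r.den : ℚ) : ℚ) := by rw [h]
    rw [h2, ha]
    push_cast
    rfl
  have hlt : a < r.den := by
    have hd : (0 : ℝ) < r.den := by exact_mod_cast r.den_pos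
    have h2 : (r : ℝ) < 1 := by exact_mod_cast h1
    rw [hr, div_lt_one hd] at h2
    exact_mod_cast h2
  obtain ⟨l, hl1, hl2, hl3⟩ := egypt_list a r.den ha0 hlt
  refine ⟨l.length, fun i => l.get i, fun i => hl1 _ (List.get_mem l i), ?_, ?_⟩
  · rw [hr, ← hl2, ← Fin.sum_univ_fun_getElem l (fun q : ℕ => (1 : ℝ) / q)]
    rfl
  · rw [hr]
    refine le_trans (le_of_eq ?_) hl3
    rw [← Fin.sum_univ_fun_getElem l (fun q : ℕ => (1 : ℝ) / √(q : ℝ))]
    rfl

end Pool.Agent.H39R3.Mom
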