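import Mathlib
import Pool.Agent.H306R2.RMain
import Pool.Agent.H306R2.X379ConstB
import Pool.Agent.H306R2.X379StirR
import Pool.Agent.H39R3.Egypt

/-!
The constant of the master lower bound for rational exponents (helper39).
-/

set_option autoImplicit false

namespace Pool.Agent.H39R3.Mom

open Real Finset Pool.Agent.H306R2

/-- Stirling from above with a square root error -/
theorem gamma_sqrt {a : ℝ} (ha : 0 < a) :
    log (Gamma (a + 1)) ≤ a * log a - a + 1.25 * √a := by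
  have hs : 0 < √a := Real.sqrt_pos.mpr ha
  have hsq : √a * √a = a := Real.mul_self_sqrt ha.le
  have hlog : log a = 2 * log √a := by
    rw [Real.log_sqrt ha.le]
    ring
  rcases le_total a 1 with h1 | h1
  · have hG : Gamma (a + 1) ≤ 1 := by
      have hc := Real.convexOn_Gamma
      have h := hc.2 (Set.mem_Ioi.mpr (zero_lt_one' ℝ)) (Set.mem_Ioi.mpr (zero_lt_two' ℝ))
        (sub_nonneg.mpr h1) ha.le (sub_add_cancel 1 a)
      simp only [smul_eq_mul, mul_one, Real.Gamma_one, Real.Gamma_two] at h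
      have e : 1 - a + a * 2 = a + 1 := by ring
      rw [e] at h
      linarith
    have hlG : log (Gamma (a + 1)) ≤ 0 :=
      Real.log_nonpos (Real.Gamma_pos_of_pos (by linarith)).le hG
    refine hlG.trans ?_
    -- `s log s ≥ s / 2 - exp (-1/2)`
    have k1 : √a / 2 - exp (-(1 / 2)) ≤ √a * log √a := by
      have h := Real.log_le_sub_one_of_pos (x := exp (-(1 / 2)) / √a) (by positivity)
      rw [Real.log_div (by positivity) hs.ne', Real.log_exp] at h
      have h2 := mul_le_mul_of_nonneg_left h hs.le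
      have e : √a * (exp (-(1 / 2)) / √a - 1) = exp (-(1 / 2)) - √a := by
        field_simp
      rw [e] at h2
      linarith
    have k2 : exp (-(1 / 2) : ℝ) ≤ 0.6154 := by
      rw [Real.exp_neg]
      have h := Real.quadratic_le_exp_of_nonneg (by norm_num : (0 : ℝ) ≤ 1 / 2)
      rw [inv_le_comm₀ (Real.exp_pos _) (by norm_num)]
      refine le_trans ?_ h
      norm_num
    have k3 : 0 ≤ 2 * (√a * log √a) - √a + 1.25 := by linarith
    have k4 : a * log a - a + 1.25 * √a = √a * (2 * (√a * log √a) - √a + 1.25) := by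
      rw [hlog]
      linear_combination (-(2 * log √a - 1)) * hsq
    rw [k4]
    exact mul_nonneg hs.le k3
  · have h := X379StirR.log_gamma_le ha
    have hs1 : 1 ≤ √a := Real.one_le_sqrt.mpr h1
    have k1 : log (2 * π * a) = log (2 * π) + 2 * log √a := by
      rw [Real.log_mul (by positivity) ha.ne', hlog]
    have k2 : log √a ≤ √a - 1 := Real.log_le_sub_one_of_pos hs
    have k3 : log (2 * π) ≤ 2 := by
      rw [Real.log_le_iff_le_exp (by positivity)]
      have h3 := Real.pi_lt_d2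
      have h4 : (7.3 : ℝ) ≤ exp 2 := by
        have h5 := Real.exp_one_gt_d9
        have h6 : exp 2 = exp 1 * exp 1 := by rw [← Real.exp_add]; norm_num
        rw [h6]
        nlinarith
      linarith
    have k4 : 1 / (12 * a) ≤ 1 / 12 := by
      apply one_div_le_one_div_of_le (by norm_num)
      linarith
    rw [k1] at h
    linarith

/-- the exponent in the constant -/
noncomputable def expo (κ : ℝ) (j : ℕ) : ℝ :=
  κ ^ 2 * (2 * log 2 - (κ + j) / j * log ((κ + j) / κ)) -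
    κ / j * (4.375 * (κ * √(1 - j / κ))) - (κ / j - 1) * log (2 * π * κ ^ 2) / 2 -
    1 / (6 * (j : ℝ) ^ 2)

theorem mB_lower (κ : ℝ) (j : ℕ) (hj : 1 ≤ j) (hjκ : (j : ℝ) < κ) {n : ℕ} (q : Fin n → ℕ)
    (hq : ∀ i, 2 ≤ q i) (hsum : ∑ i, (1 : ℝ) / (q i : ℝ) = 1 - j / κ)
    (hsq : ∑ i, (1 : ℝ) / √(q i : ℝ) ≤ 3.5 * √(1 - j / κ)) :
    AdmR κ j q (fun i => κ / (κ + j) / (q i : ℝ)) ∧
    exp (expo κ j) / Gamma (κ ^ 2 + 1) ≤ mB κ j q (fun i => κ / (κ + j) / (q i : ℝ)) := by
  have hj0 : (0 : ℝ) < j := by exact_mod_cast hj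
  have hj1 : (1 : ℝ) ≤ j := by exact_mod_cast hj
  have hκ : 0 < κ := by linarith
  have hκj : 0 < κ + j := by linarith
  have hq0 : ∀ i, (0 : ℝ) < q i := fun i => by
    have := hq i
    exact_mod_cast (by omega : 0 < q i)
  have hβ0 : ∀ i, 0 < κ / (κ + j) / (q i : ℝ) := fun i => by
    have := hq0 i
    positivity
  have hc1 : κ / (κ + j) ≤ 1 := by
    rw [div_le_one hκj]
    linarith
  have hSb : ∑ i, κ / (κ + j) / (q i : ℝ) = (κ - j) / (κ + j) := by
    have : ∀ i, κ / (κ + j) / (q i : ℝ) = κ / (κ + j) * (1 / (q i : ℝ)) := fun i => by ring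
    simp_rw [this]
    rw [← Finset.mul_sum, hsum]
    field_simp
  have hadm : AdmR κ j q (fun i => κ / (κ + j) / (q i : ℝ)) := by
    refine ⟨hj, hq, by rw [hsum]; ring, hβ0, fun i => ?_, ?_, ?_⟩
    · have := hq0 i
      exact div_le_div_of_nonneg_right hc1 this.le
    · rw [hSb, div_le_one hκj]
      linarith
    · nlinarith
  refine ⟨hadm, ?_⟩
  -- the quantity `S`
  set S : ℝ := ∑ i, κ / (κ + j) / (q i : ℝ) * (κ ^ 2 / q i / (κ ^ 2 / q i + 1)) with hS
  have hSle : S ≤ (κ - j) / (κ + j) := by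
    rw [← hSb, hS]
    refine Finset.sum_le_sum fun i _ => ?_
    have h1 := hq0 i
    have h2 : κ ^ 2 / (q i : ℝ) / (κ ^ 2 / q i + 1) ≤ 1 := by
      rw [div_le_one (by positivity)]
      linarith
    exact mul_le_of_le_one_right (hβ0 i).le h2
  have h1S : 2 * j / (κ + j) ≤ 1 - S := by
    have e : 2 * j / (κ + j) = 1 - (κ - j) / (κ + j) := by
      field_simp
      ring
    rw [e]
    linarith
  have hD : 0 < 1 - S := lt_of_lt_of_le (by positivity) h1S
  rw [X379ConstB.mB_eq κ j q _ hκ hβ0 hD, ← hS]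
  have hG1 : 0 < Gamma (κ ^ 2 + 1) := Real.Gamma_pos_of_pos (by positivity)
  rw [div_le_iff₀ hG1]
  have hG2 : Gamma (κ ^ 2 + 1) = exp (log (Gamma (κ ^ 2 + 1))) := (Real.exp_log hG1).symm
  nth_rewrite 2 [hG2]
  rw [← Real.exp_add]
  apply Real.exp_le_exp.mpr
  -- the sum
  have hT1 : (κ ^ 2 - κ * j) * (1 - log (κ * (κ + j))) - 4.375 * (κ * √(1 - j / κ)) ≤
      ∑ i, (κ ^ 2 / q i * log (κ / (κ + j) / (q i : ℝ)) - log (Gamma (κ ^ 2 / q i + 1))) := by
    have h1 : ∀ i, κ ^ 2 * (1 / (q i : ℝ)) * (1 - log (κ * (κ + j))) -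
        1.25 * κ * (1 / √(q i : ℝ)) ≤
        κ ^ 2 / q i * log (κ / (κ + j) / (q i : ℝ)) - log (Gamma (κ ^ 2 / q i + 1)) := by
      intro i
      have h2 := hq0 i
      have ha : 0 < κ ^ 2 / (q i : ℝ) := by positivity
      have h3 := gamma_sqrt ha
      have h4 : √(κ ^ 2 / (q i : ℝ)) = κ * (1 / √(q i : ℝ)) := by
        rw [Real.sqrt_div (by positivity), Real.sqrt_sq hκ.le]
        ring
      have h5 : log (κ / (κ + j) / (q i : ℝ)) =
          log (κ ^ 2 / (q i : ℝ)) - log (κ * (κ + j)) := by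
        rw [← Real.log_div (by positivity) (by positivity)]
        congr 1
        field_simp
      rw [h4] at h3
      rw [h5]
      have h6 : κ ^ 2 * (1 / (q i : ℝ)) = κ ^ 2 / (q i : ℝ) := by ring
      rw [h6]
      nlinarith
    have h2 := Finset.sum_le_sum (fun i (_ : i ∈ (Finset.univ : Finset (Fin n))) => h1 i)
    refine le_trans ?_ h2
    rw [Finset.sum_sub_distrib, ← Finset.sum_mul, ← Finset.mul_sum, ← Finset.mul_sum, hsum]
    have h3 : κ ^ 2 * (1 - j / κ) = κ ^ 2 - κ * j := by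
      field_simp
    rw [h3]
    have h4 : 1.25 * κ * ∑ i, 1 / √(q i : ℝ) ≤ 1.25 * κ * (3.5 * √(1 - j / κ)) :=
      mul_le_mul_of_nonneg_left hsq (by positivity)
    have h5 : 1.25 * κ * (3.5 * √(1 - j / κ)) = 4.375 * (κ * √(1 - j / κ)) := by ring
    linarith
  have hT2 : 2 * (κ * j) * log (2 * j / (κ + j)) ≤ 2 * (κ * j) * log (1 - S) := by
    apply mul_le_mul_of_nonneg_left _ (by positivity)
    exact Real.log_le_log (by positivity) h1S
  have hT3 := X379StirR.log_gamma_ge (x := κ ^ 2) (by positivity)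
  have hT4 := X379StirR.log_gamma_le (x := κ * j) (by positivity)
  -- logarithms
  set L : ℝ := log κ with hL
  set l : ℝ := log (j : ℝ) with hl
  set s : ℝ := log (κ + j) with hs
  have e1 : log (κ * (κ + j)) = L + s := Real.log_mul hκ.ne' hκj.ne'
  have e2 : log (2 * j / (κ + j)) = log 2 + l - s := by
    rw [Real.log_div (by positivity) hκj.ne', Real.log_mul (by norm_num) hj0.ne']
  have e3 : log (κ ^ 2) = 2 * L := by
    rw [Real.log_pow]
    push_cast
    ring
  have e4 : log (κ * j) = L + l := Real.log_mul hκ.ne' hj0.ne'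
  have e5 : log ((κ + j) / κ) = s - L := Real.log_div hκj.ne' hκ.ne'
  have e6 : log (2 * π * (κ * j)) = log (2 * π * κ ^ 2) - (L - l) := by
    have : 2 * π * (κ * j) = (2 * π * κ ^ 2) * (j / κ) := by
      field_simp
    rw [this, Real.log_mul (by positivity) (by positivity), Real.log_div hj0.ne' hκ.ne']
    ring
  rw [e1] at hT1
  rw [e2] at hT2
  rw [e3] at hT3
  rw [e4, e6] at hT4
  set P : ℝ := log (2 * π * κ ^ 2) with hP
  have hLl : 0 ≤ L - l := by
    have : l ≤ L := Real.log_le_log hj0 hjκ.le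
    linarith
  unfold expo
  rw [e5, ← hP]
  set Q : ℝ := κ * √(1 - j / κ) with hQ
  have hκj' : 0 < κ / j := by positivity
  -- combine
  have hbr : (κ ^ 2 - κ * j) * (1 - (L + s)) - 4.375 * Q + 2 * (κ * j) * (log 2 + l - s) +
      (κ ^ 2 * (2 * L) - κ ^ 2 + P / 2) -
      2 * (κ * j * (L + l) - κ * j + (P - (L - l)) / 2 + 1 / (12 * (κ * j))) ≤
      (∑ i, (κ ^ 2 / q i * log (κ / (κ + j) / (q i : ℝ)) - log (Gamma (κ ^ 2 / q i + 1))) +
        2 * (κ * j) * log (1 - S) + log (Gamma (κ ^ 2 + 1)) -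
        2 * log (Gamma (κ * j + 1))) := by
    linarith
  have hmul := mul_le_mul_of_nonneg_right hbr hκj'.le
  have hfin : κ ^ 2 * (2 * log 2 - (κ + j) / j * (s - L)) - κ / j * (4.375 * Q) -
      (κ / j - 1) * P / 2 - 1 / (6 * (j : ℝ) ^ 2) ≤
      ((κ ^ 2 - κ * j) * (1 - (L + s)) - 4.375 * Q + 2 * (κ * j) * (log 2 + l - s) +
      (κ ^ 2 * (2 * L) - κ ^ 2 + P / 2) -
      2 * (κ * j * (L + l) - κ * j + (P - (L - l)) / 2 + 1 / (12 * (κ * j)))) * (κ / j) +
      (κ ^ 2 * (2 * L) - κ ^ 2 + P / 2) := by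
    have key : ((κ ^ 2 - κ * j) * (1 - (L + s)) - 4.375 * Q + 2 * (κ * j) * (log 2 + l - s) +
      (κ ^ 2 * (2 * L) - κ ^ 2 + P / 2) -
      2 * (κ * j * (L + l) - κ * j + (P - (L - l)) / 2 + 1 / (12 * (κ * j)))) * (κ / j) +
      (κ ^ 2 * (2 * L) - κ ^ 2 + P / 2) =
      κ ^ 2 * (2 * log 2 - (κ + j) / j * (s - L)) - κ / j * (4.375 * Q) -
      (κ / j - 1) * P / 2 - 1 / (6 * (j : ℝ) ^ 2) + κ / j * (L - l) := by
      field_simp
      ring
    rw [key]
    have : 0 ≤ κ / j * (L - l) := mul_nonneg hκj'.le hLl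
    linarith
  linarith

end Pool.Agent.H39R3.Mom
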