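import Mathlib
import Pool.Agent.H39R3.MomConst

/-!
Lower bounds for the moments of zeta with rational exponents (helper39).
-/

set_option autoImplicit false

namespace Pool.Agent.H39R3.Mom

open Real Finset Pool.Agent.H306R2 Filter Topology MeasureTheory

/-- the master bound with unit fractions filled in -/
theorem master_rat (r : ℚ) (hr : 1 < r) (j : ℕ) (hj : 1 ≤ j) (hjr : (j : ℚ) < r) (c : ℝ)
    (hc : c < aF (r : ℝ) * (exp (expo (r : ℝ) j) / Gamma ((r : ℝ) ^ 2 + 1))) :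
    ∀ᶠ T : ℝ in atTop, c * (T * log T ^ ((r : ℝ) ^ 2)) ≤
      ∫ t in (0:ℝ)..T, ‖riemannZeta (1 / 2 + t * Complex.I)‖ ^ (2 * (r : ℝ)) := by
  have hr0 : 0 < r := by linarith
  have hj0 : (0 : ℚ) < j := by exact_mod_cast hj
  have h1 : 0 < 1 - (j : ℚ) / r := by
    rw [sub_pos, div_lt_one hr0]
    exact hjr
  have h2 : 1 - (j : ℚ) / r < 1 := by
    have : 0 < (j : ℚ) / r := by positivity
    linarith
  obtain ⟨n, q, hq, hsum, hsq⟩ := egypt (1 - (j : ℚ) / r) h1 h2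
  have e : (((1 - (j : ℚ) / r : ℚ)) : ℝ) = 1 - (j : ℝ) / (r : ℝ) := by
    push_cast
    ring
  rw [e] at hsum hsq
  have hjR : (j : ℝ) < (r : ℝ) := by exact_mod_cast hjr
  have hrR : (0 : ℝ) < (r : ℝ) := by exact_mod_cast hr0
  obtain ⟨hadm, hmB⟩ := mB_lower (r : ℝ) j hj hjR q hq hsum hsq
  refine masterR (r : ℝ) hrR j q _ hadm c (lt_of_lt_of_le hc ?_)
  exact mul_le_mul_of_nonneg_left hmB (aF_pos hrR).le

theorem chord {t : ℝ} (h0 : 0 ≤ t) (h1 : t ≤ 1) : (1 + t) * log (1 + t) ≤ t * (2 * log 2) := by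
  have h := Real.convexOn_mul_log.2 (x := 1) (y := 2) (Set.mem_Ici.mpr zero_le_one)
    (Set.mem_Ici.mpr zero_le_two) (sub_nonneg.mpr h1) h0 (sub_add_cancel 1 t)
  simp only [smul_eq_mul, Real.log_one, mul_zero, mul_one, zero_add] at h
  have e : 1 - t + t * 2 = 1 + t := by ring
  rw [e] at h
  exact h

theorem log_two_pi_sq {κ : ℝ} (hκ : 1 ≤ κ) : 0 ≤ log (2 * π * κ ^ 2) ∧
    log (2 * π * κ ^ 2) ≤ 2 * κ := by
  have hκ0 : 0 < κ := by linarith
  have hpi := Real.pi_gt_three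
  have k3 : log (2 * π) ≤ 2 := by
    rw [Real.log_le_iff_le_exp (by positivity)]
    have h3 := Real.pi_lt_d2
    have h5 := Real.exp_one_gt_d9
    have h6 : exp 2 = exp 1 * exp 1 := by rw [← Real.exp_add]; norm_num
    rw [h6]
    nlinarith
  constructor
  · apply Real.log_nonneg
    have : 1 ≤ κ ^ 2 := one_le_pow₀ hκ
    nlinarith
  · rw [Real.log_mul (by positivity) (by positivity), Real.log_pow]
    have := Real.log_le_sub_one_of_pos hκ0
    push_cast
    linarith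

/-- the choice `j = ⌈κ⌉ - 1` -/
theorem expo_all {κ : ℝ} (hκ : 1 < κ) : ∃ j : ℕ, 1 ≤ j ∧ (j : ℝ) < κ ∧
    -(11 * √κ) ≤ expo κ j := by
  have hκ0 : 0 < κ := by linarith
  set c : ℕ := ⌈κ⌉₊ with hc
  have hc2 : 2 ≤ c := by
    have : 1 < c := Nat.lt_ceil.mpr (by exact_mod_cast hκ)
    omega
  have hclt : (c : ℝ) < κ + 1 := Nat.ceil_lt_add_one hκ0.le
  have hcle : κ ≤ c := Nat.le_ceil κ
  obtain ⟨j, hj⟩ : ∃ j : ℕ, c = j + 1 := ⟨c - 1, by omega⟩
  have hjR : (c : ℝ) = j + 1 := by rw [hj]; push_cast; ring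
  have hj1 : 1 ≤ j := by omega
  have hj1R : (1 : ℝ) ≤ j := by exact_mod_cast hj1
  have hj0 : (0 : ℝ) < j := by linarith
  have hjκ : (j : ℝ) < κ := by linarith
  have hκj1 : κ ≤ j + 1 := by linarith
  refine ⟨j, hj1, hjκ, ?_⟩
  have hs1 : 1 ≤ √κ := Real.one_le_sqrt.mpr hκ.le
  have hdiv : κ / j ≤ 2 := by
    rw [div_le_iff₀ hj0]
    linarith
  have hdiv1 : 1 ≤ κ / j := by
    rw [le_div_iff₀ hj0]
    linarith
  -- first term
  have t1 : 0 ≤ κ ^ 2 * (2 * log 2 - (κ + j) / j * log ((κ + j) / κ)) := by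
    apply mul_nonneg (by positivity)
    have ht0 : 0 < (j : ℝ) / κ := by positivity
    have ht1 : (j : ℝ) / κ ≤ 1 := by
      rw [div_le_one hκ0]
      exact hjκ.le
    have h := chord ht0.le ht1
    have e1 : (κ + j) / κ = 1 + j / κ := by field_simp
    have e2 : (κ + j) / j = (1 + j / κ) / (j / κ) := by field_simp
    rw [e1, e2, div_mul_eq_mul_div, sub_nonneg, div_le_iff₀ ht0]
    linarith
  -- second term
  have t2 : κ / j * (4.375 * (κ * √(1 - j / κ))) ≤ 8.75 * √κ := by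
    have h1 : κ * √(1 - j / κ) ≤ √κ := by
      have e : κ * √(1 - j / κ) = √(κ * (κ - j)) := by
        have : κ * (κ - j) = κ ^ 2 * (1 - j / κ) := by field_simp
        rw [this, Real.sqrt_mul (by positivity), Real.sqrt_sq hκ0.le]
      rw [e]
      apply Real.sqrt_le_sqrt
      nlinarith
    have h2 : 0 ≤ κ * √(1 - j / κ) := by positivity
    calc κ / j * (4.375 * (κ * √(1 - j / κ))) ≤ 2 * (4.375 * √κ) := by
          apply mul_le_mul hdiv _ (by positivity) (by norm_num)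
          linarith
      _ = 8.75 * √κ := by ring
  -- third term
  obtain ⟨hP0, hP1⟩ := log_two_pi_sq hκ.le
  have t3 : (κ / j - 1) * log (2 * π * κ ^ 2) / 2 ≤ 2 * √κ := by
    have h1 : κ / j - 1 ≤ 2 / κ := by
      rw [div_sub_one hj0.ne', div_le_div_iff₀ hj0 hκ0]
      nlinarith
    have h2 : (κ / j - 1) * log (2 * π * κ ^ 2) ≤ 2 / κ * (2 * κ) :=
      mul_le_mul h1 hP1 hP0 (by positivity)
    have h3 : 2 / κ * (2 * κ) = 4 := by field_simp; norm_num
    linarith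
  have t4 : 1 / (6 * (j : ℝ) ^ 2) ≤ 1 / 6 := by
    apply one_div_le_one_div_of_le (by norm_num)
    have : 1 ≤ (j : ℝ) ^ 2 := one_le_pow₀ hj1R
    linarith
  unfold expo
  linarith

/-- small `j` -/
theorem expo_large {A : ℝ} (hA : 0 < A) (hA4 : A < 4 / exp 1) : ∃ B : ℝ, ∀ κ : ℝ, B ≤ κ →
    ∃ j : ℕ, 1 ≤ j ∧ (j : ℝ) < κ ∧ κ ^ 2 * log A ≤ expo κ j := by
  have hlogA : log A < 2 * log 2 - 1 := by
    have h1 := Real.log_lt_log hA hA4
    rw [Real.log_div (by norm_num) (Real.exp_pos 1).ne', Real.log_exp,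
      show (4 : ℝ) = 2 ^ 2 by norm_num, Real.log_pow] at h1
    push_cast at h1
    exact h1
  set η : ℝ := min (2 * log 2 - 1 - log A) 1 with hη
  have hη0 : 0 < η := lt_min (by linarith) one_pos
  have hη1 : η ≤ 1 := min_le_right _ _
  have hηA : log A ≤ 2 * log 2 - 1 - η := by
    have := min_le_left (2 * log 2 - 1 - log A) 1
    linarith
  refine ⟨46 / η ^ 2, fun κ hκ => ?_⟩
  have hη2 : η ^ 2 ≤ 1 := pow_le_one₀ hη0.le hη1
  have hη20 : 0 < η ^ 2 := by positivity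
  have hκη : 46 ≤ κ * η ^ 2 := by
    rwa [div_le_iff₀ hη20] at hκ
  have hκ46 : 46 ≤ κ := by
    have hκ0 : 0 < κ := lt_of_lt_of_le (by positivity) hκ
    nlinarith
  have hκ0 : 0 < κ := by linarith
  have hκη1 : 46 ≤ κ * η := by
    have : κ * η ^ 2 ≤ κ * η := by
      apply mul_le_mul_of_nonneg_left _ hκ0.le
      nlinarith
    linarith
  set j : ℕ := ⌈η / 4 * κ⌉₊ with hj
  have hjlo : η / 4 * κ ≤ j := Nat.le_ceil _
  have hjhi : (j : ℝ) < η / 4 * κ + 1 := Nat.ceil_lt_add_one (by positivity)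
  have hj1 : 1 ≤ j := Nat.one_le_ceil_iff.mpr (by positivity)
  have hj1R : (1 : ℝ) ≤ j := by exact_mod_cast hj1
  have hj0 : (0 : ℝ) < j := by linarith
  have hjκ : (j : ℝ) < κ := by nlinarith
  refine ⟨j, hj1, hjκ, ?_⟩
  have hdiv : κ / j ≤ 4 / η := by
    rw [div_le_div_iff₀ hj0 hη0]
    linarith
  have ht : (j : ℝ) / κ ≤ η / 2 := by
    rw [div_le_iff₀ hκ0]
    linarith
  -- first term
  have t1 : κ ^ 2 * (log A + η / 2) ≤
      κ ^ 2 * (2 * log 2 - (κ + j) / j * log ((κ + j) / κ)) := by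
    apply mul_le_mul_of_nonneg_left _ (by positivity)
    have h1 : log ((κ + j) / κ) ≤ (κ + j) / κ - 1 := Real.log_le_sub_one_of_pos (by positivity)
    have h2 : (κ + j) / κ - 1 = j / κ := by field_simp; ring
    rw [h2] at h1
    have h3 : (κ + j) / j * log ((κ + j) / κ) ≤ (κ + j) / j * (j / κ) :=
      mul_le_mul_of_nonneg_left h1 (by positivity)
    have h4 : (κ + j) / j * (j / κ) = 1 + j / κ := by field_simp
    linarith
  have t2 : κ / j * (4.375 * (κ * √(1 - j / κ))) ≤ 17.5 * κ / η := by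
    have h1 : √(1 - j / κ) ≤ 1 := by
      have h0 : 0 < (j : ℝ) / κ := by positivity
      exact Real.sqrt_le_iff.mpr ⟨zero_le_one, by linarith⟩
    have h2 : κ * √(1 - j / κ) ≤ κ := mul_le_of_le_one_right hκ0.le h1
    calc κ / j * (4.375 * (κ * √(1 - j / κ))) ≤ 4 / η * (4.375 * κ) := by
          apply mul_le_mul hdiv _ (by positivity) (by positivity)
          linarith
      _ = 17.5 * κ / η := by ring
  obtain ⟨hP0, hP1⟩ := log_two_pi_sq (κ := κ) (by linarith)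
  have t3 : (κ / j - 1) * log (2 * π * κ ^ 2) / 2 ≤ 4 * κ / η := by
    have h1 : κ / j - 1 ≤ 4 / η := by linarith
    have h2 : (κ / j - 1) * log (2 * π * κ ^ 2) ≤ 4 / η * (2 * κ) :=
      mul_le_mul h1 hP1 hP0 (by positivity)
    have h3 : 4 / η * (2 * κ) = 2 * (4 * κ / η) := by ring
    linarith
  have t4 : 1 / (6 * (j : ℝ) ^ 2) ≤ κ / η := by
    have h1 : 1 / (6 * (j : ℝ) ^ 2) ≤ 1 / 6 := by
      apply one_div_le_one_div_of_le (by norm_num)
      have : 1 ≤ (j : ℝ) ^ 2 := one_le_pow₀ hj1R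
      linarith
    have h2 : (46 : ℝ) ≤ κ / η := by
      rw [le_div_iff₀ hη0]
      nlinarith
    linarith
  have t5 : 22.5 * κ / η ≤ κ ^ 2 * (η / 2) := by
    rw [div_le_iff₀ hη0]
    nlinarith
  have e : 17.5 * κ / η + 4 * κ / η + κ / η = 22.5 * κ / η := by ring
  have e2 : κ ^ 2 * (log A + η / 2) = κ ^ 2 * log A + κ ^ 2 * (η / 2) := by ring
  unfold expo
  linarith

end Pool.Agent.H39R3.Mom
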