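import Mathlib

/-!
From `∫_0^T` to the average over a shifted window.
-/

set_option autoImplicit false

namespace Pool.Agent.H39R3.Mom

open Real Filter Topology MeasureTheory

theorem log_shift (X0 : ℝ) : Tendsto (fun T : ℝ => log (T - X0) / log T) atTop (𝓝 1) := by
  have h1 : Tendsto (fun T : ℝ => 1 - X0 / T) atTop (𝓝 1) := by
    have : Tendsto (fun T : ℝ => X0 / T) atTop (𝓝 0) := tendsto_const_nhds.div_atTop tendsto_id
    simpa using tendsto_const_nhds.sub this
  have h2 : Tendsto (fun T : ℝ => log (1 - X0 / T)) atTop (𝓝 0) := by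
    have := (Real.continuousAt_log (one_ne_zero)).tendsto.comp h1
    rw [Real.log_one] at this
    exact this
  have h3 : Tendsto (fun T : ℝ => 1 + log (1 - X0 / T) / log T) atTop (𝓝 1) := by
    have := h2.div_atTop Real.tendsto_log_atTop
    simpa using tendsto_const_nhds.add this
  refine h3.congr' ?_
  filter_upwards [eventually_gt_atTop (max X0 1)] with T hT
  have hT1 : 1 < T := lt_of_le_of_lt (le_max_right _ _) hT
  have hTX : X0 < T := lt_of_le_of_lt (le_max_left _ _) hT
  have hT0 : 0 < T := by linarith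
  have hl : 0 < log T := Real.log_pos hT1
  have e : T - X0 = T * (1 - X0 / T) := by field_simp
  have h4 : 0 < 1 - X0 / T := by
    rw [sub_pos, div_lt_one hT0]
    exact hTX
  rw [e, Real.log_mul hT0.ne' h4.ne', add_div, div_self hl.ne']

theorem shift (f : ℝ → ℝ) (hf : Continuous f) (hf0 : ∀ t, 0 ≤ f t) (p : ℝ) (hp : 0 < p)
    (c c' : ℝ) (hcc' : c < c')
    (h : ∀ᶠ T : ℝ in atTop, c' * (T * log T ^ p) ≤ ∫ t in (0:ℝ)..T, f t) (x : ℝ) :
    ∀ᶠ T : ℝ in atTop, c * log T ^ p ≤ ∫ u in (0:ℝ)..1, f (x + T * u) := by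
  set X0 : ℝ := |x| with hX0
  set C : ℝ := ∫ t in (0:ℝ)..X0, f t with hC
  have h1 : Tendsto (fun T : ℝ => (T - X0) / T) atTop (𝓝 1) := by
    have h2 : Tendsto (fun T : ℝ => 1 - X0 / T) atTop (𝓝 1) := by
      have : Tendsto (fun T : ℝ => X0 / T) atTop (𝓝 0) := tendsto_const_nhds.div_atTop tendsto_id
      simpa using tendsto_const_nhds.sub this
    refine h2.congr' ?_
    filter_upwards [eventually_gt_atTop 0] with T hT
    rw [sub_div, div_self hT.ne']
  have h2 : Tendsto (fun T : ℝ => (log (T - X0) / log T) ^ p) atTop (𝓝 1) := by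
    have := (log_shift X0).rpow_const (p := p) (Or.inl one_ne_zero)
    simpa using this
  have h3 : Tendsto (fun T : ℝ => C / (T * log T ^ p)) atTop (𝓝 0) := by
    apply tendsto_const_nhds.div_atTop
    apply Tendsto.atTop_mul_atTop₀ tendsto_id
    exact (tendsto_rpow_atTop hp).comp Real.tendsto_log_atTop
  have h4 : Tendsto (fun T : ℝ => c' * ((T - X0) / T * (log (T - X0) / log T) ^ p) -
      C / (T * log T ^ p)) atTop (𝓝 c') := by
    have := ((h1.mul h2).const_mul c').sub h3
    simpa using this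
  have h5 := h4.eventually_const_lt hcc'
  have h6 : ∀ᶠ T : ℝ in atTop, c' * ((T - X0) * log (T - X0) ^ p) ≤
      ∫ t in (0:ℝ)..(T - X0), f t :=
    (tendsto_atTop_add_const_right atTop (-X0) tendsto_id).eventually h
  filter_upwards [h5, h6, eventually_gt_atTop (2 * X0 + 2)] with T k5 k6 k7
  have hX00 : 0 ≤ X0 := abs_nonneg x
  have hT0 : 0 < T := by linarith
  have hlT : 0 < log T := Real.log_pos (by linarith)
  have hlT2 : 0 ≤ log (T - X0) := Real.log_nonneg (by linarith)
  -- substitution
  rw [intervalIntegral.integral_comp_add_mul (fun t => f t) hT0.ne' x]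
  have e1 : x + T * 0 = x := by ring
  have e2 : x + T * 1 = x + T := by ring
  rw [e1, e2, smul_eq_mul]
  have hxX : x ≤ X0 := le_abs_self x
  have hxX' : -X0 ≤ x := neg_abs_le x
  have k8 : ∫ t in X0..(T - X0), f t ≤ ∫ t in x..(x + T), f t := by
    apply intervalIntegral.integral_mono_interval hxX (by linarith) (by linarith)
    · exact Filter.Eventually.of_forall fun t => hf0 t
    · exact hf.intervalIntegrable _ _
  have k9 : ∫ t in X0..(T - X0), f t = (∫ t in (0:ℝ)..(T - X0), f t) - C := by
    rw [hC, intervalIntegral.integral_interval_sub_left (hf.intervalIntegrable _ _)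
      (hf.intervalIntegrable _ _)]
  have hD : 0 < T * log T ^ p := mul_pos hT0 (Real.rpow_pos_of_pos hlT _)
  have k10 : c * (T * log T ^ p) ≤ c' * ((T - X0) * log (T - X0) ^ p) - C := by
    have h := mul_le_mul_of_nonneg_right k5.le hD.le
    refine h.trans (le_of_eq ?_)
    rw [Real.div_rpow hlT2 hlT.le]
    have : log T ^ p ≠ 0 := (Real.rpow_pos_of_pos hlT _).ne'
    field_simp
  have k11 : c * (T * log T ^ p) ≤ ∫ t in x..(x + T), f t := by linarith
  rw [inv_mul_eq_div, le_div_iff₀ hT0]
  linarith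

end Pool.Agent.H39R3.Mom
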